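import Pool.Agent.Work.MP_8b3296_mp.Translate

open MeasureTheory Metric Set
open scoped ContDiff Convolution ENNReal

namespace Pool.Agent.Work.MP_8b3296_mp

/-- Averaged form of the difference quotient estimate. -/
lemma lintegral_avg_le {f : E3 → ℝ} {g : E3 → E3} (hfm : Measurable f) (hf : MemLp f 2)
    (hw : IsWeakGradient f g) (hg : MemLp g 2) {s : ℝ} :
    ∫⁻ x, ∫⁻ h in ball (0 : E3) s, ENNReal.ofReal ((f (x + h) - f x) ^ 2) ≤
      volume (ball (0 : E3) s) * ENNReal.ofReal (s ^ 2 * ∫ x, ‖g x‖ ^ 2) := by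
  have hmeas : Measurable (fun q : E3 × E3 => ENNReal.ofReal ((f (q.1 + q.2) - f q.1) ^ 2)) := by
    fun_prop
  rw [lintegral_lintegral_swap]
  · calc ∫⁻ h in ball (0 : E3) s, ∫⁻ x, ENNReal.ofReal ((f (x + h) - f x) ^ 2)
        ≤ ∫⁻ h in ball (0 : E3) s, ENNReal.ofReal (s ^ 2 * ∫ x, ‖g x‖ ^ 2) := by
          apply setLIntegral_mono measurable_const
          intro h hh
          have hh' : ‖h‖ < s := by simpa using hh
          have hfh : MemLp (fun x => f (x + h)) 2 := by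
            simpa [Function.comp_def] using
              hf.comp_measurePreserving (measurePreserving_add_right volume h)
          have hδm : MemLp (fun x => f (x + h) - f x) 2 := hfh.sub hf
          rw [← ofReal_integral_eq_lintegral_ofReal hδm.integrable_sq
            (Filter.Eventually.of_forall fun x => by positivity)]
          apply ENNReal.ofReal_le_ofReal
          refine (integral_translate_sub_sq_le hf hw hg h).trans ?_
          have : 0 ≤ ∫ x, ‖g x‖ ^ 2 := integral_nonneg fun x => by positivity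
          gcongr
      _ = _ := by
          rw [setLIntegral_const, mul_comm]
  · exact hmeas.aemeasurable

/-- Pointwise comparison: `ρ(x) |B_s| ≤ 2 ∫_{|h|<s} |ψ(x+h) - ψ(x)|² dh + 2 ∫_{|h|<s} ρ(x+h) dh`. -/
lemma rho_mul_volume_le {ρ : E3 → ℝ} (hm : Measurable ρ) (h0 : ∀ x, 0 ≤ ρ x) (s : ℝ) (x : E3) :
    ENNReal.ofReal (ρ x) * volume (ball (0 : E3) s) ≤
      2 * (∫⁻ h in ball (0 : E3) s, ENNReal.ofReal ((√(ρ (x + h)) - √(ρ x)) ^ 2))
        + 2 * ∫⁻ h in ball (0 : E3) s, ENNReal.ofReal (ρ (x + h)) := by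
  rw [← lintegral_const_mul _ (by fun_prop), ← lintegral_const_mul _ (by fun_prop),
    ← lintegral_add_left (by fun_prop), ← setLIntegral_const]
  apply setLIntegral_mono (by fun_prop)
  intro h _
  have key : ∀ a b : ℝ, 0 ≤ a → 0 ≤ b →
      ENNReal.ofReal a ≤ 2 * ENNReal.ofReal ((√b - √a) ^ 2) + 2 * ENNReal.ofReal b := by
    intro a b ha hb
    have h2 : (2 : ℝ≥0∞) = ENNReal.ofReal 2 := by simp
    rw [h2, ← ENNReal.ofReal_mul (by norm_num), ← ENNReal.ofReal_mul (by norm_num),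
      ← ENNReal.ofReal_add (by positivity) (by positivity)]
    apply ENNReal.ofReal_le_ofReal
    have e1 := Real.sq_sqrt ha
    have e2 := Real.sq_sqrt hb
    nlinarith [sq_nonneg (2 * √b - √a), sq_nonneg (√b)]
  exact key _ _ (h0 x) (h0 _)

/-- Mass of a set `S`:
`μ(S) |B_s| ≤ 2 |B_s| s² ∫|∇√ρ|² + 2 |S| ∫ρ`. -/
lemma mass_mul_volume_le {ρ : E3 → ℝ} {g : E3 → E3} (hm : Measurable ρ) (h0 : ∀ x, 0 ≤ ρ x)
    (hint : Integrable ρ) (hw : IsWeakGradient (fun x => √(ρ x)) g) (hg : MemLp g 2)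
    (S : Set E3) (s : ℝ) :
    (∫⁻ x in S, ENNReal.ofReal (ρ x)) * volume (ball (0 : E3) s) ≤
      2 * (volume (ball (0 : E3) s) * ENNReal.ofReal (s ^ 2 * ∫ x, ‖g x‖ ^ 2))
        + 2 * (volume (S) * ∫⁻ x, ENNReal.ofReal (ρ x)) := by
  have hψ : MemLp (fun x => √(ρ x)) 2 := by
    rw [memLp_two_iff_integrable_sq (by fun_prop)]
    refine hint.congr ?_
    filter_upwards with x
    exact (Real.sq_sqrt (h0 x)).symm
  have h1 := lintegral_avg_le (by fun_prop) hψ hw hg (s := s)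
  rw [← lintegral_mul_const _ (by fun_prop)]
  calc ∫⁻ x in S, ENNReal.ofReal (ρ x) * volume (ball (0 : E3) s)
      ≤ ∫⁻ x in S, (2 * (∫⁻ h in ball (0 : E3) s, ENNReal.ofReal ((√(ρ (x + h)) - √(ρ x)) ^ 2))
        + 2 * ∫⁻ y, ENNReal.ofReal (ρ y)) := by
        apply lintegral_mono
        intro x
        refine (rho_mul_volume_le hm h0 s x).trans (add_le_add le_rfl (mul_le_mul_right ?_ _))
        calc ∫⁻ h in ball (0 : E3) s, ENNReal.ofReal (ρ (x + h))
            ≤ ∫⁻ h, ENNReal.ofReal (ρ (x + h)) := setLIntegral_le_lintegral _ _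
          _ = ∫⁻ y, ENNReal.ofReal (ρ y) := lintegral_add_left_eq_self (fun y => ENNReal.ofReal (ρ y)) x
    _ ≤ 2 * (∫⁻ x, ∫⁻ h in ball (0 : E3) s, ENNReal.ofReal ((√(ρ (x + h)) - √(ρ x)) ^ 2))
        + 2 * (volume (S) * ∫⁻ x, ENNReal.ofReal (ρ x)) := by
        have hmeas : Measurable (fun x => ∫⁻ h in ball (0 : E3) s, ENNReal.ofReal ((√(ρ (x + h)) - √(ρ x)) ^ 2)) := by
          apply Measurable.lintegral_prod_right'
            (f := fun q : E3 × E3 => ENNReal.ofReal ((√(ρ (q.1 + q.2)) - √(ρ q.1)) ^ 2))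
          fun_prop
        rw [lintegral_add_left (by fun_prop), lintegral_const_mul _ hmeas, setLIntegral_const]
        refine add_le_add ?_ (le_of_eq (by ring))
        exact mul_le_mul_right (setLIntegral_le_lintegral _ _) _
    _ ≤ _ := add_le_add (mul_le_mul_right h1 _) le_rfl

/-- Mass of small balls: `μ(B(c,τ⁵)) ≤ 2 τ⁶ (∫|∇√ρ|² + ∫ρ)`. -/
lemma closedBall_mass_le {ρ : E3 → ℝ} {g : E3 → E3} (hm : Measurable ρ) (h0 : ∀ x, 0 ≤ ρ x)
    (hint : Integrable ρ) (hw : IsWeakGradient (fun x => √(ρ x)) g) (hg : MemLp g 2)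
    (c : E3) {τ : ℝ} (hτ : 0 < τ) :
    ∫⁻ x in closedBall c (τ ^ 5), ENNReal.ofReal (ρ x) ≤
      ENNReal.ofReal (2 * τ ^ 6 * ((∫ x, ‖g x‖ ^ 2) + ∫ x, ρ x)) := by
  set G := ∫ x, ‖g x‖ ^ 2 with hG
  have hG0 : 0 ≤ G := integral_nonneg fun x => by positivity
  set lam := ∫ x, ρ x with hlam
  have hlam0 : 0 ≤ lam := integral_nonneg h0
  have hl : ∫⁻ x, ENNReal.ofReal (ρ x) = ENNReal.ofReal lam :=
    (ofReal_integral_eq_lintegral_ofReal hint (Filter.Eventually.of_forall h0)).symm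
  have h1 := mass_mul_volume_le hm h0 hint hw hg (closedBall c (τ ^ 5)) (τ ^ 3)
  have hfin : ∫⁻ x in closedBall c (τ ^ 5), ENNReal.ofReal (ρ x) ≠ ⊤ := by
    refine ne_top_of_le_ne_top ?_ (setLIntegral_le_lintegral _ _)
    rw [hl]; exact ENNReal.ofReal_ne_top
  have hbfin : volume (ball (0 : E3) 1) ≠ ⊤ := measure_ball_lt_top.ne
  have hbpos : 0 < (volume (ball (0 : E3) 1)).toReal :=
    ENNReal.toReal_pos (measure_ball_pos _ _ one_pos).ne' hbfin
  obtain ⟨m, hm0, hmeq⟩ : ∃ m : ℝ, 0 ≤ m ∧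
      ∫⁻ x in closedBall c (τ ^ 5), ENNReal.ofReal (ρ x) = ENNReal.ofReal m :=
    ⟨_, ENNReal.toReal_nonneg, (ENNReal.ofReal_toReal hfin).symm⟩
  set b := (volume (ball (0 : E3) 1)).toReal with hb
  have hbeq : volume (ball (0 : E3) 1) = ENNReal.ofReal b := (ENNReal.ofReal_toReal hbfin).symm
  have h2 : (2 : ℝ≥0∞) = ENNReal.ofReal 2 := by simp
  rw [Measure.addHaar_closedBall volume c (by positivity : (0 : ℝ) ≤ τ ^ 5),
    Measure.addHaar_ball volume (0 : E3) (by positivity : (0 : ℝ) ≤ τ ^ 3), hbeq, hl, hmeq] at h1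
  simp only [finrank_euclideanSpace, Fintype.card_fin] at h1
  have e1 : ENNReal.ofReal m * (ENNReal.ofReal ((τ ^ 3) ^ 3) * ENNReal.ofReal b)
      = ENNReal.ofReal (m * ((τ ^ 3) ^ 3 * b)) := by
    rw [ENNReal.ofReal_mul hm0, ENNReal.ofReal_mul (by positivity)]
  have e2 : (2 : ℝ≥0∞) * (ENNReal.ofReal ((τ ^ 3) ^ 3) * ENNReal.ofReal b *
        ENNReal.ofReal ((τ ^ 3) ^ 2 * G))
      + 2 * (ENNReal.ofReal ((τ ^ 5) ^ 3) * ENNReal.ofReal b * ENNReal.ofReal lam)
      = ENNReal.ofReal (2 * ((τ ^ 3) ^ 3 * b * ((τ ^ 3) ^ 2 * G)) + 2 * ((τ ^ 5) ^ 3 * b * lam)) := by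
    have aux : ∀ a b c : ℝ, 0 ≤ a → 0 ≤ b → (2 : ℝ≥0∞) * (ENNReal.ofReal a * ENNReal.ofReal b *
        ENNReal.ofReal c) = ENNReal.ofReal (2 * (a * b * c)) := by
      intro a b c ha hb
      rw [ENNReal.ofReal_mul (by norm_num), ENNReal.ofReal_mul (by positivity),
        ENNReal.ofReal_mul ha]
      simp
    rw [aux _ _ _ (by positivity) hbpos.le, aux _ _ _ (by positivity) hbpos.le,
      ← ENNReal.ofReal_add (by positivity) (by positivity)]
  rw [e1, e2] at h1
  have h3 := (ENNReal.ofReal_le_ofReal_iff (by positivity)).1 h1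
  rw [hmeq]
  apply ENNReal.ofReal_le_ofReal
  have h4 : 0 < τ ^ 9 * b := by positivity
  refine le_of_mul_le_mul_right ?_ h4
  calc m * (τ ^ 9 * b) = m * ((τ ^ 3) ^ 3 * b) := by ring
    _ ≤ _ := h3
    _ = _ := by ring

/-- `∫_{|x-c| ≤ τ⁵} ρ(x)/|x-c| dx ≤ 128 τ (∫|∇√ρ|² + ∫ρ)`. -/
lemma setLIntegral_coulomb_near_le {ρ : E3 → ℝ} {g : E3 → E3} (hm : Measurable ρ)
    (h0 : ∀ x, 0 ≤ ρ x)
    (hint : Integrable ρ) (hw : IsWeakGradient (fun x => √(ρ x)) g) (hg : MemLp g 2)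
    (c : E3) {τ : ℝ} (hτ : 0 < τ) :
    ∫⁻ x in closedBall c (τ ^ 5), ENNReal.ofReal (ρ x * ‖x - c‖⁻¹) ≤
      ENNReal.ofReal (128 * τ * ((∫ x, ‖g x‖ ^ 2) + ∫ x, ρ x)) := by
  set G := ∫ x, ‖g x‖ ^ 2 with hG
  have hG0 : 0 ≤ G := integral_nonneg fun x => by positivity
  set lam := ∫ x, ρ x with hlam
  have hlam0 : 0 ≤ lam := integral_nonneg h0
  set t : ℕ → ℝ := fun k => τ / 2 ^ k with ht
  have ht0 : ∀ k, 0 < t k := fun k => by positivity
  have hpt : ∀ x ∈ closedBall c (τ ^ 5), ENNReal.ofReal (ρ x * ‖x - c‖⁻¹) ≤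
      ∑' k, (closedBall c (t k ^ 5)).indicator
        (fun x => ENNReal.ofReal (32 * (t k ^ 5)⁻¹) * ENNReal.ofReal (ρ x)) x := by
    intro x hx
    rw [mem_closedBall, dist_eq_norm] at hx
    rcases eq_or_lt_of_le (norm_nonneg (x - c)) with h | hpos
    · rw [← h]; simp
    · have hy0 : 0 < ‖x - c‖ / τ ^ 5 := by positivity
      have hy1 : ‖x - c‖ / τ ^ 5 ≤ 1 := by
        rw [div_le_one (by positivity)]; exact hx
      obtain ⟨n, hn1, hn2⟩ := exists_nat_pow_near_of_lt_one hy0 hy1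
        (y := (1 / 32 : ℝ)) (by norm_num) (by norm_num)
      have hτ5 : 0 < τ ^ 5 := by positivity
      have e0 : t n ^ 5 = (1 / 32 : ℝ) ^ n * τ ^ 5 := by
        simp only [ht]
        rw [div_pow, ← pow_mul, mul_comm n 5, pow_mul]
        norm_num
        rw [div_eq_mul_inv, mul_comm, one_div, inv_pow]
      have hn1' : t n ^ 5 / 32 ≤ ‖x - c‖ := by
        rw [lt_div_iff₀ hτ5] at hn1
        rw [e0]
        refine le_trans (le_of_eq ?_) hn1.le
        rw [pow_succ]; ring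
      have hn2' : ‖x - c‖ ≤ t n ^ 5 := by
        rw [div_le_iff₀ hτ5] at hn2
        rw [e0]; exact hn2
      refine le_trans ?_ (ENNReal.le_tsum n)
      rw [indicator_of_mem (by rw [mem_closedBall, dist_eq_norm]; exact hn2'),
        ← ENNReal.ofReal_mul (by have := ht0 n; positivity)]
      apply ENNReal.ofReal_le_ofReal
      have h5 : ‖x - c‖⁻¹ ≤ 32 * (t n ^ 5)⁻¹ := by
        have htn : 0 < t n ^ 5 := by have := ht0 n; positivity
        calc ‖x - c‖⁻¹ ≤ (t n ^ 5 / 32)⁻¹ := by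
              apply inv_anti₀ (by positivity) hn1'
          _ = 32 * (t n ^ 5)⁻¹ := by rw [inv_div]; ring
      rw [mul_comm]
      exact mul_le_mul_of_nonneg_right h5 (h0 x)
  calc ∫⁻ x in closedBall c (τ ^ 5), ENNReal.ofReal (ρ x * ‖x - c‖⁻¹)
      ≤ ∫⁻ x in closedBall c (τ ^ 5), ∑' k, (closedBall c (t k ^ 5)).indicator
        (fun x => ENNReal.ofReal (32 * (t k ^ 5)⁻¹) * ENNReal.ofReal (ρ x)) x :=
        setLIntegral_mono' measurableSet_closedBall hpt
    _ ≤ ∫⁻ x, ∑' k, (closedBall c (t k ^ 5)).indicator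
        (fun x => ENNReal.ofReal (32 * (t k ^ 5)⁻¹) * ENNReal.ofReal (ρ x)) x :=
        setLIntegral_le_lintegral _ _
    _ = ∑' k, ∫⁻ x, (closedBall c (t k ^ 5)).indicator
        (fun x => ENNReal.ofReal (32 * (t k ^ 5)⁻¹) * ENNReal.ofReal (ρ x)) x := by
        apply lintegral_tsum
        intro k
        exact ((by fun_prop : Measurable _).indicator measurableSet_closedBall).aemeasurable
    _ ≤ ∑' k, ENNReal.ofReal (64 * t k * (G + lam)) := by
        apply ENNReal.tsum_le_tsum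
        intro k
        rw [lintegral_indicator measurableSet_closedBall, lintegral_const_mul _ (by fun_prop)]
        refine (mul_le_mul_right (closedBall_mass_le hm h0 hint hw hg c (ht0 k)) _).trans ?_
        rw [← ENNReal.ofReal_mul (by have := ht0 k; positivity)]
        apply ENNReal.ofReal_le_ofReal
        apply le_of_eq
        have := (ht0 k).ne'
        rw [← hG, ← hlam]
        field_simp
        ring
    _ = ENNReal.ofReal (128 * τ * (G + lam)) := by
        have hs : Summable (fun k : ℕ => 64 * t k * (G + lam)) := by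
          simp only [ht]
          refine Summable.mul_right _ (Summable.mul_left _ ?_)
          have := (summable_geometric_two).mul_left τ
          refine this.congr fun k => ?_
          rw [one_div, inv_pow, div_eq_mul_inv]
        rw [← ENNReal.ofReal_tsum_of_nonneg (fun k => by have := ht0 k; positivity) hs]
        congr 1
        have e1 : ∀ k : ℕ, 64 * t k * (G + lam) = (64 * τ * (G + lam)) * (1 / 2) ^ k := by
          intro k
          simp only [ht]
          rw [one_div, inv_pow]; ring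
        simp only [e1]
        rw [tsum_mul_left, tsum_geometric_two]
        ring

end Pool.Agent.Work.MP_8b3296_mp
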