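import Pool.Agent.Work.MP_8b3296_mp.Defs

open MeasureTheory Metric Set
open scoped ContDiff ENNReal

namespace Pool.Agent.Work.MP_8b3296_mp.TFDW

variable (d : TFDW)

lemma one_lt_p : 1 < d.p := lt_trans (by norm_num) d.lt_p
lemma p_pos : 0 < d.p := lt_trans one_pos d.one_lt_p

lemma rho0_base_pos : 0 < d.Ce * d.p * (4 * d.γ * (d.p - 1))⁻¹ := by
  have h1 := d.one_lt_p
  have h2 := d.p_pos
  have h3 := d.Ce_pos
  have h4 := d.γ_pos
  have h5 : 0 < d.p - 1 := by linarith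
  positivity

lemma rho0_pos : 0 < d.rho0 := Real.rpow_pos_of_pos d.rho0_base_pos _

lemma rho0_rpow : d.rho0 ^ (d.p - 4 / 3) = d.Ce * d.p * (4 * d.γ * (d.p - 1))⁻¹ := by
  have h : d.p - 4 / 3 ≠ 0 := by have := d.lt_p; linarith
  rw [rho0, ← Real.rpow_mul d.rho0_base_pos.le, one_div, inv_mul_cancel₀ h, Real.rpow_one]

lemma alpha_pos : 0 < d.alpha := by
  have h1 := d.lt_p
  have h5 : 0 < d.p - 1 := by linarith
  have h6 : 0 < 3 * d.p - 4 := by linarith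
  have := Real.rpow_pos_of_pos d.rho0_pos (1 / 3)
  have h7 := d.Ce_pos
  unfold alpha
  positivity

lemma Jalpha_zero : d.Jalpha 0 = 0 := by
  have := d.p_pos.ne'
  simp [Jalpha, J, Real.zero_rpow this, Real.zero_rpow (by norm_num : (4 / 3 : ℝ) ≠ 0)]

lemma Jalpha_eq_mul {t : ℝ} (ht : 0 < t) :
    d.Jalpha t = t * (d.γ / d.p * t ^ (d.p - 1) - 3 * d.Ce / 4 * t ^ (1 / 3 : ℝ) + d.alpha) := by
  have e1 : t ^ d.p = t * t ^ (d.p - 1) := by
    rw [Real.rpow_sub_one ht.ne']; field_simp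
  have e2 : t ^ (4 / 3 : ℝ) = t * t ^ (1 / 3 : ℝ) := by
    rw [← Real.rpow_one_add' ht.le (by norm_num)]; norm_num
  rw [Jalpha, J, e1, e2]; ring

lemma Jalpha_nonneg {t : ℝ} (ht : 0 ≤ t) : 0 ≤ d.Jalpha t := by
  rcases eq_or_lt_of_le ht with h | hpos
  · rw [← h, Jalpha_zero]
  rw [d.Jalpha_eq_mul hpos]
  refine mul_nonneg ht ?_
  have hp := d.lt_p
  have hp1 : 0 < d.p - 1 := by linarith
  have hr := d.rho0_pos
  have hCe := d.Ce_pos
  have hγ := d.γ_pos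
  have hpp := d.p_pos
  set r := d.rho0 with hrdef
  set θ := 1 / (3 * (d.p - 1)) with hθ
  have hθ0 : 0 ≤ θ := by positivity
  have hθ1 : θ ≤ 1 := by
    rw [hθ, div_le_one (by positivity)]; linarith
  have hs : 0 < t / r := by positivity
  have amgm := Real.geom_mean_le_arith_mean2_weighted (w₁ := θ) (w₂ := 1 - θ)
    (p₁ := (t / r) ^ (d.p - 1)) (p₂ := 1) hθ0 (by linarith) (Real.rpow_nonneg hs.le _)
    zero_le_one (by ring)
  rw [Real.one_rpow, mul_one, mul_one, ← Real.rpow_mul hs.le] at amgm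
  have e1 : (d.p - 1) * θ = 1 / 3 := by rw [hθ]; field_simp
  rw [e1, Real.div_rpow ht hr.le, Real.div_rpow ht hr.le] at amgm
  have hr13 : 0 < r ^ (1 / 3 : ℝ) := Real.rpow_pos_of_pos hr _
  have hrp : 0 < r ^ (d.p - 1) := Real.rpow_pos_of_pos hr _
  have e2 : r ^ (d.p - 1) = r ^ (1 / 3 : ℝ) * (d.Ce * d.p * (4 * d.γ * (d.p - 1))⁻¹) := by
    rw [← d.rho0_rpow, ← hrdef, ← Real.rpow_add hr]; congr 1; ring
  -- multiply the AM-GM inequality by `3 Ce / 4 * r^{1/3}`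
  have h3 : 3 * d.Ce / 4 * t ^ (1 / 3 : ℝ) ≤
      3 * d.Ce / 4 * r ^ (1 / 3 : ℝ) * (θ * (t ^ (d.p - 1) / r ^ (d.p - 1)) + (1 - θ)) := by
    calc 3 * d.Ce / 4 * t ^ (1 / 3 : ℝ)
        = 3 * d.Ce / 4 * r ^ (1 / 3 : ℝ) * (t ^ (1 / 3 : ℝ) / r ^ (1 / 3 : ℝ)) := by
          field_simp
      _ ≤ _ := by gcongr
  have h4 : 3 * d.Ce / 4 * r ^ (1 / 3 : ℝ) * (θ * (t ^ (d.p - 1) / r ^ (d.p - 1)) + (1 - θ))
      = d.γ / d.p * t ^ (d.p - 1) + d.alpha := by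
    rw [e2, alpha, ← hrdef, hθ]
    field_simp
    ring
  linarith

/-- For small densities `J_α(t) ≥ (α/2) t`. -/
lemma exists_small : ∃ a : ℝ, 0 < a ∧ ∀ t, 0 ≤ t → t ≤ a → d.alpha / 2 * t ≤ d.Jalpha t := by
  have hα := d.alpha_pos
  have hCe := d.Ce_pos
  have hγ := d.γ_pos
  have hpp := d.p_pos
  refine ⟨(2 * d.alpha / (3 * d.Ce)) ^ 3, by positivity, fun t ht hta => ?_⟩
  rcases eq_or_lt_of_le ht with h | hpos
  · rw [← h, Jalpha_zero]; simp
  rw [d.Jalpha_eq_mul hpos, mul_comm]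
  refine mul_le_mul_of_nonneg_left ?_ ht
  have h1 : t ^ (1 / 3 : ℝ) ≤ 2 * d.alpha / (3 * d.Ce) := by
    calc t ^ (1 / 3 : ℝ) ≤ ((2 * d.alpha / (3 * d.Ce)) ^ 3) ^ (1 / 3 : ℝ) :=
          Real.rpow_le_rpow ht hta (by norm_num)
      _ = 2 * d.alpha / (3 * d.Ce) := by
          rw [← Real.rpow_natCast, ← Real.rpow_mul (by positivity)]
          norm_num
  have h2 : 0 ≤ d.γ / d.p * t ^ (d.p - 1) := by
    have := Real.rpow_nonneg ht (d.p - 1); positivity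
  have h3 : 3 * d.Ce / 4 * t ^ (1 / 3 : ℝ) ≤ d.alpha / 2 := by
    calc 3 * d.Ce / 4 * t ^ (1 / 3 : ℝ) ≤ 3 * d.Ce / 4 * (2 * d.alpha / (3 * d.Ce)) := by gcongr
      _ = d.alpha / 2 := by field_simp; ring
  linarith

/-- `J_α` is superlinear. -/
lemma exists_large {K : ℝ} (hK : 0 < K) :
    ∃ T : ℝ, 0 ≤ T ∧ ∀ t, 0 ≤ t → t ≤ K⁻¹ * d.Jalpha t + T := by
  have hα := d.alpha_pos
  have hCe := d.Ce_pos
  have hγ := d.γ_pos
  have hpp := d.p_pos
  have hp : 0 < d.p - 4 / 3 := by have := d.lt_p; linarith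
  obtain ⟨T0, hT0⟩ := Filter.eventually_atTop.1
    ((tendsto_rpow_atTop hp).eventually_ge_atTop ((K + 3 * d.Ce / 4) * d.p / d.γ))
  refine ⟨max T0 1, by positivity, fun t ht => ?_⟩
  have hJ := d.Jalpha_nonneg ht
  rcases le_or_gt t (max T0 1) with h | h
  · have : 0 ≤ K⁻¹ * d.Jalpha t := by positivity
    linarith
  have hT : T0 ≤ t := le_of_lt (lt_of_le_of_lt (le_max_left _ _) h)
  have h1 : 1 ≤ t := le_of_lt (lt_of_le_of_lt (le_max_right _ _) h)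
  have hpos : 0 < t := by linarith
  have h2 := hT0 t hT
  have h3 : 1 ≤ t ^ (1 / 3 : ℝ) := Real.one_le_rpow h1 (by norm_num)
  have e1 : t ^ (d.p - 1) = t ^ (1 / 3 : ℝ) * t ^ (d.p - 4 / 3) := by
    rw [← Real.rpow_add hpos]; congr 1; ring
  have h4 : K * t ≤ d.Jalpha t := by
    rw [d.Jalpha_eq_mul hpos, mul_comm K t]
    refine mul_le_mul_of_nonneg_left ?_ ht
    rw [e1]
    have h5 : K + 3 * d.Ce / 4 ≤ d.γ / d.p * t ^ (d.p - 4 / 3) := by
      calc K + 3 * d.Ce / 4 = d.γ / d.p * ((K + 3 * d.Ce / 4) * d.p / d.γ) := by field_simp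
        _ ≤ _ := by gcongr
    nlinarith [mul_le_mul_of_nonneg_left h5 (by positivity : 0 ≤ t ^ (1 / 3 : ℝ)), mul_le_mul_of_nonneg_left h3 hK.le]
  have h6 : t ≤ K⁻¹ * d.Jalpha t := by
    rw [inv_mul_eq_div, le_div_iff₀ hK, mul_comm]; exact h4
  have : 0 ≤ max T0 1 := by positivity
  linarith

lemma measurable_Jalpha : Measurable d.Jalpha := by
  unfold Jalpha J
  fun_prop

lemma integrable_Jalpha {ρ : E3 → ℝ} (h : MemG d.p ρ) : Integrable (fun x => d.Jalpha (ρ x)) := by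
  have h43 : Integrable (fun x => ρ x ^ (4 / 3 : ℝ)) := by
    refine (h.integrable.add h.integrable_rpow).mono' ?_ ?_
    · exact (h.measurable.pow_const _).aestronglyMeasurable
    · filter_upwards with x
      have h0 := h.nonneg x
      rw [Real.norm_of_nonneg (Real.rpow_nonneg h0 _)]
      show ρ x ^ (4 / 3 : ℝ) ≤ ρ x + ρ x ^ d.p
      rcases le_or_gt (ρ x) 1 with h1 | h1
      · have : ρ x ^ (4 / 3 : ℝ) ≤ ρ x ^ (1 : ℝ) := by
          rcases eq_or_lt_of_le h0 with h2 | h2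
          · rw [← h2]; norm_num
          · exact Real.rpow_le_rpow_of_exponent_ge h2 h1 (by norm_num)
        rw [Real.rpow_one] at this
        have := Real.rpow_nonneg h0 d.p
        linarith
      · have : ρ x ^ (4 / 3 : ℝ) ≤ ρ x ^ d.p :=
          Real.rpow_le_rpow_of_exponent_le h1.le d.lt_p.le
        linarith
  unfold Jalpha J
  exact ((h.integrable_rpow.const_mul _).sub (h43.const_mul _)).add (h.integrable.const_mul _)

end Pool.Agent.Work.MP_8b3296_mp.TFDW
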