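import Pool.Agent.Work.MP_8b3296_mp.Coulomb
import Pool.Agent.Work.MP_8b3296_mp.Jalpha

open MeasureTheory Metric Set
open scoped ContDiff ENNReal

namespace Pool.Agent.Work.MP_8b3296_mp

lemma dirichlet_spec {f : E3 → ℝ} (h : ∃ g : E3 → E3, MemLp g 2 ∧ IsWeakGradient f g) :
    ∃ g : E3 → E3, MemLp g 2 ∧ IsWeakGradient f g ∧ dirichlet f = ∫ x, ‖g x‖ ^ 2 := by
  refine ⟨h.choose, h.choose_spec.1, h.choose_spec.2, ?_⟩
  rw [dirichlet, dif_pos h]

/-- The pointwise trichotomy. -/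
lemma pointwise_bound {A b a β α' J r : ℝ} {Q m : ℝ≥0∞} (hA : 0 < A) (hb : 0 < b) (ha : 0 < a)
    (hr : 0 ≤ r) (hJa : r ≤ a → α' * r ≤ J)
    (hβα : β ≤ α') (hβb : β ≤ b * a / 8) (hβA : β ≤ A / 4)
    (hQ : ENNReal.ofReal r * ENNReal.ofReal b ≤ 2 * Q + 2 * m) :
    ENNReal.ofReal (β * r) ≤ ENNReal.ofReal (A / b) * Q +
      (ENNReal.ofReal J + 2⁻¹ * (ENNReal.ofReal r * m)) := by
  rcases le_or_gt r a with h | h
  · refine le_trans (ENNReal.ofReal_le_ofReal ?_) (le_trans (le_self_add) (le_add_self))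
    exact (mul_le_mul_of_nonneg_right hβα hr).trans (hJa h)
  · rcases le_or_gt (ENNReal.ofReal (b * a / 4)) m with hm | hm
    · refine le_trans ?_ (le_trans (le_add_self) (le_add_self))
      calc ENNReal.ofReal (β * r) ≤ ENNReal.ofReal (2⁻¹ * (r * (b * a / 4))) := by
            apply ENNReal.ofReal_le_ofReal
            calc β * r ≤ b * a / 8 * r := mul_le_mul_of_nonneg_right hβb hr
              _ = _ := by ring
        _ = 2⁻¹ * (ENNReal.ofReal r * ENNReal.ofReal (b * a / 4)) := by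
            rw [ENNReal.ofReal_mul (by norm_num), ENNReal.ofReal_mul hr,
              ENNReal.ofReal_inv_of_pos (by norm_num)]
            simp
        _ ≤ _ := by gcongr
    · refine le_trans ?_ (le_self_add)
      rcases eq_or_ne Q ⊤ with hQt | hQt
      · rw [hQt, ENNReal.mul_top]
        · exact le_top
        · simp only [ne_eq, ENNReal.ofReal_eq_zero, not_le]; positivity
      · obtain ⟨q, hq0, hq⟩ : ∃ q : ℝ, 0 ≤ q ∧ Q = ENNReal.ofReal q :=
          ⟨_, ENNReal.toReal_nonneg, (ENNReal.ofReal_toReal hQt).symm⟩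
        have hmt : m ≠ ⊤ := (lt_of_lt_of_le hm le_top).ne
        obtain ⟨m', hm0, hm'⟩ : ∃ q : ℝ, 0 ≤ q ∧ m = ENNReal.ofReal q :=
          ⟨_, ENNReal.toReal_nonneg, (ENNReal.ofReal_toReal hmt).symm⟩
        rw [hq, hm'] at hQ
        rw [hm'] at hm
        have hm2 : m' < b * a / 4 := (ENNReal.ofReal_lt_ofReal_iff (by positivity)).1 hm
        have h2 : (2 : ℝ≥0∞) = ENNReal.ofReal 2 := by simp
        rw [h2, ← ENNReal.ofReal_mul hr, ← ENNReal.ofReal_mul (by norm_num),
          ← ENNReal.ofReal_mul (by norm_num), ← ENNReal.ofReal_add (by positivity) (by positivity)]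
          at hQ
        have hQ' := (ENNReal.ofReal_le_ofReal_iff (by positivity)).1 hQ
        rw [hq, ← ENNReal.ofReal_mul (by positivity)]
        apply ENNReal.ofReal_le_ofReal
        have h3 : b * r / 4 ≤ q := by nlinarith
        calc β * r ≤ A / 4 * r := mul_le_mul_of_nonneg_right hβA hr
          _ = A / b * (b * r / 4) := by field_simp
          _ ≤ A / b * q := by gcongr

/-- Positive energy per particle without nuclei:
`β ∫ρ ≤ A ∫|∇√ρ|² + ∫ J_α(ρ) + D(ρ,ρ)`. -/
lemma exists_beta (d : TFDW) : ∃ β : ℝ, 0 < β ∧ ∀ (ρ : E3 → ℝ) (g : E3 → E3), MemG d.p ρ →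
    MemLp g 2 → IsWeakGradient (fun x => √(ρ x)) g →
    β * (∫ x, ρ x) ≤ d.A * (∫ x, ‖g x‖ ^ 2) + (∫ x, d.Jalpha (ρ x)) + coulomb ρ ρ := by
  obtain ⟨a, ha, haJ⟩ := d.exists_small
  have hbfin : volume (ball (0 : E3) 1) ≠ ⊤ := measure_ball_lt_top.ne
  set b := (volume (ball (0 : E3) 1)).toReal with hb
  have hbpos : 0 < b :=
    ENNReal.toReal_pos (measure_ball_pos _ _ one_pos).ne' hbfin
  have hbeq : volume (ball (0 : E3) 1) = ENNReal.ofReal b := (ENNReal.ofReal_toReal hbfin).symm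
  have hA := d.A_pos
  have hα := d.alpha_pos
  refine ⟨min (d.alpha / 2) (min (b * a / 8) (d.A / 4)), by positivity, ?_⟩
  intro ρ g hρ hg hw
  set β := min (d.alpha / 2) (min (b * a / 8) (d.A / 4)) with hβ
  have hβ0 : 0 < β := by positivity
  set G := ∫ x, ‖g x‖ ^ 2 with hG
  have hG0 : 0 ≤ G := integral_nonneg fun x => by positivity
  have hm := hρ.measurable
  have h0 := hρ.nonneg
  have hint := hρ.integrable
  have hJint := d.integrable_Jalpha hρ
  have hJ0 : ∀ x, 0 ≤ d.Jalpha (ρ x) := fun x => d.Jalpha_nonneg (h0 x)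
  obtain ⟨hc0, hc⟩ := lintegral_short_le_coulomb hm h0 hint hw hg
  have hψ : MemLp (fun x => √(ρ x)) 2 := by
    rw [memLp_two_iff_integrable_sq (by fun_prop)]
    refine hint.congr ?_
    filter_upwards with x
    exact (Real.sq_sqrt (h0 x)).symm
  have hQ := lintegral_avg_le (by fun_prop) hψ hw hg (s := 1)
  have hQmeas : Measurable (fun x => ∫⁻ h in ball (0 : E3) 1,
      ENNReal.ofReal ((√(ρ (x + h)) - √(ρ x)) ^ 2)) := by
    apply Measurable.lintegral_prod_right'
      (f := fun q : E3 × E3 => ENNReal.ofReal ((√(ρ (q.1 + q.2)) - √(ρ q.1)) ^ 2))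
    fun_prop
  have hmmeas : Measurable (fun x => ∫⁻ h in ball (0 : E3) 1, ENNReal.ofReal (ρ (x + h))) := by
    apply Measurable.lintegral_prod_right'
      (f := fun q : E3 × E3 => ENNReal.ofReal (ρ (q.1 + q.2)))
    fun_prop
  have hJmeas : Measurable (fun x => ENNReal.ofReal (d.Jalpha (ρ x))) :=
    (d.measurable_Jalpha.comp hm).ennreal_ofReal
  have key : ENNReal.ofReal (β * ∫ x, ρ x) ≤
      ENNReal.ofReal (d.A * G + (∫ x, d.Jalpha (ρ x)) + coulomb ρ ρ) := by
    calc ENNReal.ofReal (β * ∫ x, ρ x) = ∫⁻ x, ENNReal.ofReal (β * ρ x) := by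
          rw [← integral_const_mul, ofReal_integral_eq_lintegral_ofReal (hint.const_mul β)
            (Filter.Eventually.of_forall fun x => mul_nonneg hβ0.le (h0 x))]
      _ ≤ ∫⁻ x, (ENNReal.ofReal (d.A / b) * (∫⁻ h in ball (0 : E3) 1,
            ENNReal.ofReal ((√(ρ (x + h)) - √(ρ x)) ^ 2)) +
            (ENNReal.ofReal (d.Jalpha (ρ x)) + 2⁻¹ * (ENNReal.ofReal (ρ x) *
              ∫⁻ h in ball (0 : E3) 1, ENNReal.ofReal (ρ (x + h))))) := by
          apply lintegral_mono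
          intro x
          refine pointwise_bound hA hbpos ha (h0 x) (fun h => haJ _ (h0 x) h)
            (min_le_left _ _) ((min_le_right _ _).trans (min_le_left _ _))
            ((min_le_right _ _).trans (min_le_right _ _)) ?_
          rw [← hbeq]
          exact rho_mul_volume_le hm h0 1 x
      _ = ENNReal.ofReal (d.A / b) * (∫⁻ x, ∫⁻ h in ball (0 : E3) 1,
            ENNReal.ofReal ((√(ρ (x + h)) - √(ρ x)) ^ 2)) +
            ((∫⁻ x, ENNReal.ofReal (d.Jalpha (ρ x))) + 2⁻¹ * ∫⁻ x, (ENNReal.ofReal (ρ x) *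
              ∫⁻ h in ball (0 : E3) 1, ENNReal.ofReal (ρ (x + h)))) := by
          rw [lintegral_add_left (hQmeas.const_mul _), lintegral_add_left hJmeas,
            lintegral_const_mul _ hQmeas, lintegral_const_mul]
          exact hm.ennreal_ofReal.mul hmmeas
      _ ≤ ENNReal.ofReal (d.A / b) * (ENNReal.ofReal b * ENNReal.ofReal (1 ^ 2 * G)) +
            (ENNReal.ofReal (∫ x, d.Jalpha (ρ x)) + 2⁻¹ * ENNReal.ofReal (2 * coulomb ρ ρ)) := by
          rw [← hbeq]
          refine add_le_add (mul_le_mul_right hQ _) (add_le_add (le_of_eq ?_)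
            (mul_le_mul_right hc _))
          rw [ofReal_integral_eq_lintegral_ofReal hJint (Filter.Eventually.of_forall hJ0)]
      _ = ENNReal.ofReal (d.A * G + (∫ x, d.Jalpha (ρ x)) + coulomb ρ ρ) := by
          have hJI : 0 ≤ ∫ x, d.Jalpha (ρ x) := integral_nonneg hJ0
          have e2 : (2 : ℝ≥0∞)⁻¹ = ENNReal.ofReal 2⁻¹ := by
            rw [ENNReal.ofReal_inv_of_pos (by norm_num)]; simp
          rw [e2, ← ENNReal.ofReal_mul (p := b) hbpos.le,
            ← ENNReal.ofReal_mul (p := 2⁻¹) (by norm_num),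
            ← ENNReal.ofReal_mul (p := d.A / b) (by positivity),
            ← ENNReal.ofReal_add hJI (by positivity),
            ← ENNReal.ofReal_add (by positivity) (by positivity)]
          congr 1
          field_simp
          ring
  have hJI : 0 ≤ ∫ x, d.Jalpha (ρ x) := integral_nonneg hJ0
  exact (ENNReal.ofReal_le_ofReal_iff (by positivity)).1 key

/-- Mass in a ball is controlled by `∫ J_α(ρ)`. -/
lemma ball_mass_le_Jalpha (d : TFDW) {ρ : E3 → ℝ} (hρ : MemG d.p ρ) {K T : ℝ} (hK : 0 < K)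
    (hT : ∀ t, 0 ≤ t → t ≤ K⁻¹ * d.Jalpha t + T) (c : E3) (R : ℝ) :
    ∫ x in ball c R, ρ x ≤
      K⁻¹ * (∫ x, d.Jalpha (ρ x)) + T * (volume (ball (0 : E3) R)).toReal := by
  have hJint := d.integrable_Jalpha hρ
  have hJ0 : ∀ x, 0 ≤ d.Jalpha (ρ x) := fun x => d.Jalpha_nonneg (hρ.nonneg x)
  have hballfin : volume (ball c R) ≠ ⊤ := measure_ball_lt_top.ne
  calc ∫ x in ball c R, ρ x ≤ ∫ x in ball c R, (K⁻¹ * d.Jalpha (ρ x) + T) := by
        apply setIntegral_mono_on hρ.integrable.integrableOn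
        · exact ((hJint.const_mul _).integrableOn).add (integrableOn_const hballfin)
        · exact measurableSet_ball
        · intro x _; exact hT _ (hρ.nonneg x)
    _ = K⁻¹ * (∫ x in ball c R, d.Jalpha (ρ x)) + T * (volume (ball c R)).toReal := by
        rw [integral_add (hJint.const_mul _).integrableOn (integrableOn_const hballfin),
          integral_const_mul, setIntegral_const, smul_eq_mul, mul_comm T]
        rfl
    _ ≤ _ := by
        have h1 : ∫ x in ball c R, d.Jalpha (ρ x) ≤ ∫ x, d.Jalpha (ρ x) :=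
          setIntegral_le_integral hJint (Filter.Eventually.of_forall hJ0)
        have h2 : volume (ball c R) = volume (ball (0 : E3) R) :=
          Measure.addHaar_ball_center volume c R
        rw [h2]
        have : 0 ≤ K⁻¹ := by positivity
        gcongr

/-- The linear lower bound on `ℰ_α`. -/
theorem exists_linear_lower_bound (d : TFDW) : ∃ c : ℝ, 0 < c ∧ ∃ C : ℝ, ∀ ρ : E3 → ℝ,
    MemG d.p ρ → c * (∫ x, ρ x) - C ≤ d.energy ρ := by
  obtain ⟨β, hβ, hmain⟩ := exists_beta d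
  have hA := d.A_pos
  set Z : ℝ := ∑ j, d.z j with hZ
  have hZ0 : 0 ≤ Z := Finset.sum_nonneg fun j _ => (d.z_pos j).le
  set η : ℝ := min (d.A / 2) (β / 8) with hη
  have hη0 : 0 < η := by positivity
  set τ : ℝ := η / (128 * (Z + 1)) with hτdef
  have hτ : 0 < τ := by positivity
  set R : ℝ := 8 * (Z + 1) / β with hRdef
  have hR : 0 < R := by positivity
  set K : ℝ := 2 * (Z + 1) * (τ ^ 5)⁻¹ with hKdef
  have hK : 0 < K := by positivity
  obtain ⟨T, hT0, hT⟩ := d.exists_large hK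
  set vR : ℝ := (volume (ball (0 : E3) R)).toReal with hvR
  have hvR0 : 0 ≤ vR := ENNReal.toReal_nonneg
  refine ⟨β / 4, by positivity, Z * ((τ ^ 5)⁻¹ * (T * vR)), fun ρ hρ => ?_⟩
  obtain ⟨g, hg, hw, hdir⟩ := dirichlet_spec hρ.exists_weakGradient
  have hm := hρ.measurable
  have h0 := hρ.nonneg
  have hint := hρ.integrable
  have h1 := hmain ρ g hρ hg hw
  set G := ∫ x, ‖g x‖ ^ 2 with hG
  have hG0 : 0 ≤ G := integral_nonneg fun x => by positivity
  set lam := ∫ x, ρ x with hlam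
  have hlam0 : 0 ≤ lam := integral_nonneg h0
  set JI := ∫ x, d.Jalpha (ρ x) with hJI
  have hJI0 : 0 ≤ JI := integral_nonneg fun x => d.Jalpha_nonneg (h0 x)
  have hcoul : 0 ≤ coulomb ρ ρ := (lintegral_short_le_coulomb hm h0 hint hw hg).1
  have hU : 0 ≤ d.U := by
    unfold TFDW.U
    refine Finset.sum_nonneg fun i _ => Finset.sum_nonneg fun j _ => ?_
    split_ifs
    · have := d.z_pos i; have := d.z_pos j; positivity
    · exact le_rfl
  -- the nuclear attraction
  have hV : ∫ x, d.V x * ρ x = ∑ j, d.z j * ∫ x, ρ x * ‖x - d.R j‖⁻¹ := by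
    have e1 : ∀ x, d.V x * ρ x = ∑ j, d.z j * (ρ x * ‖x - d.R j‖⁻¹) := by
      intro x
      rw [TFDW.V, Finset.sum_mul]
      exact Finset.sum_congr rfl fun j _ => by ring
    simp only [e1]
    rw [integral_finsetSum]
    · exact Finset.sum_congr rfl fun j _ => integral_const_mul _ _
    · exact fun j _ => (integrable_coulomb hm h0 hint hw hg _).const_mul _
  have hV2 : ∫ x, d.V x * ρ x ≤ Z * (128 * τ * (G + lam) +
      ((τ ^ 5)⁻¹ * (K⁻¹ * JI + T * vR) + R⁻¹ * lam)) := by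
    rw [hV, hZ, Finset.sum_mul]
    refine Finset.sum_le_sum fun j _ => mul_le_mul_of_nonneg_left ?_ (d.z_pos j).le
    refine (integral_coulomb_le hm h0 hint hw hg (d.R j) hτ hR).trans ?_
    have := ball_mass_le_Jalpha d hρ hK hT (d.R j) R
    have hτ5 : 0 ≤ (τ ^ 5)⁻¹ := by positivity
    gcongr
  -- choice of constants
  have c1 : Z * (128 * τ * (G + lam)) ≤ η * (G + lam) := by
    have : Z * (128 * τ) ≤ η := by
      calc Z * (128 * τ) = Z / (Z + 1) * η := by rw [hτdef]; field_simp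
        _ ≤ 1 * η := by
            gcongr
            rw [div_le_one (by positivity)]; linarith
        _ = η := one_mul _
    calc Z * (128 * τ * (G + lam)) = Z * (128 * τ) * (G + lam) := by ring
      _ ≤ _ := by gcongr
  have c2 : Z * ((τ ^ 5)⁻¹ * (K⁻¹ * JI)) ≤ 1 / 2 * JI := by
    have : Z * ((τ ^ 5)⁻¹ * K⁻¹) ≤ 1 / 2 := by
      calc Z * ((τ ^ 5)⁻¹ * K⁻¹) = Z / (Z + 1) * (1 / 2) := by rw [hKdef]; field_simp
        _ ≤ 1 * (1 / 2) := by
            gcongr
            rw [div_le_one (by positivity)]; linarith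
        _ = 1 / 2 := one_mul _
    calc Z * ((τ ^ 5)⁻¹ * (K⁻¹ * JI)) = Z * ((τ ^ 5)⁻¹ * K⁻¹) * JI := by ring
      _ ≤ _ := by gcongr
  have c3 : Z * (R⁻¹ * lam) ≤ β / 8 * lam := by
    have : Z * R⁻¹ ≤ β / 8 := by
      calc Z * R⁻¹ = Z / (Z + 1) * (β / 8) := by rw [hRdef]; field_simp
        _ ≤ 1 * (β / 8) := by
            gcongr
            rw [div_le_one (by positivity)]; linarith
        _ = β / 8 := one_mul _
    calc Z * (R⁻¹ * lam) = Z * R⁻¹ * lam := by ring
      _ ≤ _ := by gcongr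
  have c4 : η * (G + lam) ≤ d.A / 2 * G + β / 8 * lam := by
    have h2 : η ≤ d.A / 2 := min_le_left _ _
    have h3 : η ≤ β / 8 := min_le_right _ _
    rw [mul_add]
    gcongr
  have hen : d.energy ρ = d.A * G + JI - (∫ x, d.V x * ρ x) + coulomb ρ ρ + d.U := by
    rw [TFDW.energy, hdir]
  rw [hen]
  have hexp : Z * (128 * τ * (G + lam) + ((τ ^ 5)⁻¹ * (K⁻¹ * JI + T * vR) + R⁻¹ * lam)) =
      Z * (128 * τ * (G + lam)) + Z * ((τ ^ 5)⁻¹ * (K⁻¹ * JI)) + Z * ((τ ^ 5)⁻¹ * (T * vR))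
        + Z * (R⁻¹ * lam) := by ring
  rw [hexp] at hV2
  linarith

end Pool.Agent.Work.MP_8b3296_mp
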