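import Pool.Agent.Work.MP_8b3296_mp.Average

open MeasureTheory Metric Set
open scoped ContDiff Convolution ENNReal

namespace Pool.Agent.Work.MP_8b3296_mp

/-- The Coulomb potential of `ρ` at `c`, split into near, middle and far parts. -/
lemma lintegral_coulomb_le {ρ : E3 → ℝ} {g : E3 → E3} (hm : Measurable ρ)
    (h0 : ∀ x, 0 ≤ ρ x)
    (hint : Integrable ρ) (hw : IsWeakGradient (fun x => √(ρ x)) g) (hg : MemLp g 2)
    (c : E3) {τ R : ℝ} (hτ : 0 < τ) (hR : 0 < R) :
    ∫⁻ x, ENNReal.ofReal (ρ x * ‖x - c‖⁻¹) ≤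
      ENNReal.ofReal (128 * τ * ((∫ x, ‖g x‖ ^ 2) + ∫ x, ρ x)) +
      (ENNReal.ofReal ((τ ^ 5)⁻¹ * ∫ x in ball c R, ρ x) + ENNReal.ofReal (R⁻¹ * ∫ x, ρ x)) := by
  have hpt : ∀ x, ENNReal.ofReal (ρ x * ‖x - c‖⁻¹) ≤
      (closedBall c (τ ^ 5)).indicator (fun x => ENNReal.ofReal (ρ x * ‖x - c‖⁻¹)) x +
      ((ball c R).indicator (fun x => ENNReal.ofReal ((τ ^ 5)⁻¹ * ρ x)) x +
        ENNReal.ofReal (R⁻¹ * ρ x)) := by
    intro x
    by_cases h1 : x ∈ closedBall c (τ ^ 5)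
    · rw [indicator_of_mem h1]; exact le_self_add
    · have h1' : τ ^ 5 < ‖x - c‖ := by
        rw [mem_closedBall, dist_eq_norm] at h1; exact not_le.1 h1
      have hτ5 : 0 < τ ^ 5 := by positivity
      by_cases h2 : x ∈ ball c R
      · rw [indicator_of_mem h2]
        refine le_trans ?_ (le_trans (le_self_add) (le_add_self))
        apply ENNReal.ofReal_le_ofReal
        rw [mul_comm]
        exact mul_le_mul_of_nonneg_right (inv_anti₀ hτ5 h1'.le) (h0 x)
      · have h2' : R ≤ ‖x - c‖ := by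
          rw [mem_ball, dist_eq_norm] at h2; exact not_lt.1 h2
        refine le_trans ?_ (le_trans (le_add_self) (le_add_self))
        apply ENNReal.ofReal_le_ofReal
        rw [mul_comm]
        exact mul_le_mul_of_nonneg_right (inv_anti₀ hR h2') (h0 x)
  calc ∫⁻ x, ENNReal.ofReal (ρ x * ‖x - c‖⁻¹)
      ≤ ∫⁻ x, ((closedBall c (τ ^ 5)).indicator (fun x => ENNReal.ofReal (ρ x * ‖x - c‖⁻¹)) x +
      ((ball c R).indicator (fun x => ENNReal.ofReal ((τ ^ 5)⁻¹ * ρ x)) x +
        ENNReal.ofReal (R⁻¹ * ρ x))) := lintegral_mono hpt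
    _ = (∫⁻ x in closedBall c (τ ^ 5), ENNReal.ofReal (ρ x * ‖x - c‖⁻¹)) +
        ((∫⁻ x in ball c R, ENNReal.ofReal ((τ ^ 5)⁻¹ * ρ x)) +
          ∫⁻ x, ENNReal.ofReal (R⁻¹ * ρ x)) := by
        rw [lintegral_add_left ((by fun_prop : Measurable _).indicator measurableSet_closedBall),
          lintegral_add_left ((by fun_prop : Measurable _).indicator measurableSet_ball),
          lintegral_indicator measurableSet_closedBall, lintegral_indicator measurableSet_ball]
    _ ≤ _ := by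
        refine add_le_add (setLIntegral_coulomb_near_le hm h0 hint hw hg c hτ) (add_le_add ?_ ?_)
        · rw [← ofReal_integral_eq_lintegral_ofReal (hint.integrableOn.const_mul _)
            (Filter.Eventually.of_forall fun x => mul_nonneg (by positivity) (h0 x)),
            integral_const_mul]
        · rw [← ofReal_integral_eq_lintegral_ofReal (hint.const_mul _)
            (Filter.Eventually.of_forall fun x => mul_nonneg (by positivity) (h0 x)),
            integral_const_mul]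

lemma integrable_coulomb {ρ : E3 → ℝ} {g : E3 → E3} (hm : Measurable ρ)
    (h0 : ∀ x, 0 ≤ ρ x)
    (hint : Integrable ρ) (hw : IsWeakGradient (fun x => √(ρ x)) g) (hg : MemLp g 2)
    (c : E3) : Integrable (fun x => ρ x * ‖x - c‖⁻¹) := by
  refine ⟨by fun_prop, ?_⟩
  rw [hasFiniteIntegral_iff_ofReal (Filter.Eventually.of_forall fun x =>
    mul_nonneg (h0 x) (by positivity))]
  refine lt_of_le_of_lt (lintegral_coulomb_le hm h0 hint hw hg c one_pos one_pos) ?_
  exact ENNReal.add_lt_top.2 ⟨ENNReal.ofReal_lt_top,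
    ENNReal.add_lt_top.2 ⟨ENNReal.ofReal_lt_top, ENNReal.ofReal_lt_top⟩⟩

/-- Real form of the bound on the Coulomb potential. -/
lemma integral_coulomb_le {ρ : E3 → ℝ} {g : E3 → E3} (hm : Measurable ρ)
    (h0 : ∀ x, 0 ≤ ρ x)
    (hint : Integrable ρ) (hw : IsWeakGradient (fun x => √(ρ x)) g) (hg : MemLp g 2)
    (c : E3) {τ R : ℝ} (hτ : 0 < τ) (hR : 0 < R) :
    ∫ x, ρ x * ‖x - c‖⁻¹ ≤ 128 * τ * ((∫ x, ‖g x‖ ^ 2) + ∫ x, ρ x) +
      ((τ ^ 5)⁻¹ * (∫ x in ball c R, ρ x) + R⁻¹ * ∫ x, ρ x) := by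
  have hG0 : 0 ≤ ∫ x, ‖g x‖ ^ 2 := integral_nonneg fun x => by positivity
  have hlam0 : 0 ≤ ∫ x, ρ x := integral_nonneg h0
  have hB0 : 0 ≤ ∫ x in ball c R, ρ x := integral_nonneg h0
  have h := lintegral_coulomb_le hm h0 hint hw hg c hτ hR
  rw [← ofReal_integral_eq_lintegral_ofReal (integrable_coulomb hm h0 hint hw hg c)
    (Filter.Eventually.of_forall fun x => mul_nonneg (h0 x) (by positivity)),
    ← ENNReal.ofReal_add (by positivity) (by positivity),
    ← ENNReal.ofReal_add (by positivity) (by positivity)] at h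
  exact (ENNReal.ofReal_le_ofReal_iff (by positivity)).1 h

/-- Lower bound on the Coulomb energy by the interaction at distance `< 1`. -/
lemma lintegral_short_le_coulomb {ρ : E3 → ℝ} {g : E3 → E3} (hm : Measurable ρ)
    (h0 : ∀ x, 0 ≤ ρ x)
    (hint : Integrable ρ) (hw : IsWeakGradient (fun x => √(ρ x)) g) (hg : MemLp g 2) :
    0 ≤ coulomb ρ ρ ∧
    ∫⁻ x, ENNReal.ofReal (ρ x) * (∫⁻ h in ball (0 : E3) 1, ENNReal.ofReal (ρ (x + h))) ≤
      ENNReal.ofReal (2 * coulomb ρ ρ) := by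
  set G := ∫ x, ‖g x‖ ^ 2 with hG
  have hG0 : 0 ≤ G := integral_nonneg fun x => by positivity
  set lam := ∫ x, ρ x with hlam
  have hlam0 : 0 ≤ lam := integral_nonneg h0
  have hl : ∫⁻ x, ENNReal.ofReal (ρ x) = ENNReal.ofReal lam :=
    (ofReal_integral_eq_lintegral_ofReal hint (Filter.Eventually.of_forall h0)).symm
  -- the kernel
  set K : E3 × E3 → ℝ := fun q => ρ q.1 * ρ q.2 * ‖q.1 - q.2‖⁻¹ with hK
  have hKm : Measurable K := by fun_prop
  have hK0 : ∀ q, 0 ≤ K q := fun q => mul_nonneg (mul_nonneg (h0 _) (h0 _)) (by positivity)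
  have hprod : ∫⁻ q, ENNReal.ofReal (K q) ∂(volume.prod volume) =
      ∫⁻ x, ∫⁻ y, ENNReal.ofReal (K (x, y)) := lintegral_prod _ (by fun_prop)
  have hinner : ∀ x, ∫⁻ y, ENNReal.ofReal (K (x, y)) =
      ENNReal.ofReal (ρ x) * ∫⁻ y, ENNReal.ofReal (ρ y * ‖y - x‖⁻¹) := by
    intro x
    rw [← lintegral_const_mul _ (by fun_prop)]
    congr 1; ext y
    rw [← ENNReal.ofReal_mul (h0 x)]
    congr 1
    simp only [hK]
    rw [norm_sub_rev]; ring
  have hfin : ∫⁻ q, ENNReal.ofReal (K q) ∂(volume.prod volume) < ⊤ := by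
    rw [hprod]
    calc ∫⁻ x, ∫⁻ y, ENNReal.ofReal (K (x, y))
        ≤ ∫⁻ x, ENNReal.ofReal (ρ x) * (ENNReal.ofReal (128 * 1 * (G + lam)) +
            (ENNReal.ofReal ((1 ^ 5)⁻¹ * lam) + ENNReal.ofReal (1⁻¹ * lam))) := by
          apply lintegral_mono
          intro x
          show ∫⁻ y, ENNReal.ofReal (K (x, y)) ≤ _
          rw [hinner x]
          refine mul_le_mul_right ((lintegral_coulomb_le hm h0 hint hw hg x one_pos one_pos).trans ?_) _
          refine add_le_add le_rfl (add_le_add (ENNReal.ofReal_le_ofReal ?_) le_rfl)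
          refine mul_le_mul_of_nonneg_left ?_ (by norm_num)
          exact setIntegral_le_integral hint (Filter.Eventually.of_forall h0)
      _ < ⊤ := by
          rw [lintegral_mul_const _ (by fun_prop), hl]
          refine ENNReal.mul_lt_top ENNReal.ofReal_lt_top ?_
          exact ENNReal.add_lt_top.2 ⟨ENNReal.ofReal_lt_top,
            ENNReal.add_lt_top.2 ⟨ENNReal.ofReal_lt_top, ENNReal.ofReal_lt_top⟩⟩
  have hKint : Integrable K (volume.prod volume) := by
    refine ⟨by fun_prop, ?_⟩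
    rw [hasFiniteIntegral_iff_ofReal (Filter.Eventually.of_forall hK0)]
    exact hfin
  have hcoul : coulomb ρ ρ = (1 / 2) * ∫ q, K q ∂(volume.prod volume) := by
    unfold coulomb
    rw [integral_prod _ hKint]
  have hpos : 0 ≤ ∫ q, K q ∂(volume.prod volume) := integral_nonneg hK0
  refine ⟨by rw [hcoul]; positivity, ?_⟩
  have e1 : ENNReal.ofReal (2 * coulomb ρ ρ) = ∫⁻ x, ∫⁻ y, ENNReal.ofReal (K (x, y)) := by
    rw [← hprod, ← ofReal_integral_eq_lintegral_ofReal hKint (Filter.Eventually.of_forall hK0), hcoul]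
    congr 1; ring
  rw [e1]
  apply lintegral_mono
  intro x
  show ENNReal.ofReal (ρ x) * (∫⁻ h in ball (0 : E3) 1, ENNReal.ofReal (ρ (x + h))) ≤
    ∫⁻ y, ENNReal.ofReal (K (x, y))
  rw [hinner x]
  refine mul_le_mul_right ?_ _
  rw [← lintegral_add_left_eq_self (fun y => ENNReal.ofReal (ρ y * ‖y - x‖⁻¹)) x,
    ← lintegral_indicator measurableSet_ball]
  apply lintegral_mono_ae
  have hne : ∀ᵐ h : E3, h ≠ 0 := by
    rw [ae_iff]; simp
  filter_upwards [hne] with h hh
  by_cases h1 : h ∈ ball (0 : E3) 1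
  · rw [indicator_of_mem h1]
    apply ENNReal.ofReal_le_ofReal
    have h2 : ‖h‖ < 1 := by simpa using h1
    have h3 : 0 < ‖h‖ := norm_pos_iff.2 hh
    have h4 : 1 ≤ ‖x + h - x‖⁻¹ := by
      rw [add_sub_cancel_left]
      exact (one_le_inv₀ h3).2 h2.le
    calc ρ (x + h) = ρ (x + h) * 1 := by ring
      _ ≤ ρ (x + h) * ‖x + h - x‖⁻¹ := mul_le_mul_of_nonneg_left h4 (h0 _)
  · rw [indicator_of_notMem h1]; exact bot_le

end Pool.Agent.Work.MP_8b3296_mp
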