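import Mathlib

/-!
# The TFDW functional with linear shift (problem MP_8b3296_mp): definitions

Everything follows the problem file.  `ℝ³` is `EuclideanSpace ℝ (Fin 3)` with Lebesgue measure.
-/

open MeasureTheory
open scoped ContDiff

namespace Pool.Agent.Work.MP_8b3296_mp

/-- Euclidean three-space. -/
abbrev E3 : Type := EuclideanSpace ℝ (Fin 3)

/-- `g` is a weak gradient of `f` on `ℝ³`: both functions are locally integrable and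
`∫ f(x) (D φ(x) v) dx = - ∫ ⟨g(x), v⟩ φ(x) dx` for all `φ ∈ C_c^∞(ℝ³)` and all `v ∈ ℝ³`. -/
def IsWeakGradient (f : E3 → ℝ) (g : E3 → E3) : Prop :=
  LocallyIntegrable f ∧ LocallyIntegrable g ∧
    ∀ φ : E3 → ℝ, ContDiff ℝ ∞ φ → HasCompactSupport φ → ∀ v : E3,
      ∫ x, f x * fderiv ℝ φ x v = - ∫ x, inner ℝ (g x) v * φ x

open scoped Classical in
/-- The Dirichlet energy `∫ |∇f|²`, computed with a weak gradient of `f` lying in `L²`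
(weak gradients are unique almost everywhere, so the choice does not matter). It is used only for
functions `f` that have a weak gradient in `L²`; for other `f` the value is set to `0`. -/
noncomputable def dirichlet (f : E3 → ℝ) : ℝ :=
  if h : ∃ g : E3 → E3, MemLp g 2 ∧ IsWeakGradient f g then ∫ x, ‖h.choose x‖ ^ 2 else 0

/-- `D(f,g) = (1/2) ∬ f(x) g(y) |x-y|⁻¹ dx dy`. -/
noncomputable def coulomb (f g : E3 → ℝ) : ℝ :=
  (1 / 2) * ∫ x, ∫ y, f x * g y * ‖x - y‖⁻¹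

/-- The set `G_p` of measurable `ρ ≥ 0` on `ℝ³` with `∫ |∇ρ^{1/2}|² < ∞` and `ρ ∈ L¹ ∩ L^p`. -/
structure MemG (p : ℝ) (ρ : E3 → ℝ) : Prop where
  measurable : Measurable ρ
  nonneg : ∀ x, 0 ≤ ρ x
  integrable : Integrable ρ
  integrable_rpow : Integrable (fun x => ρ x ^ p)
  exists_weakGradient : ∃ g : E3 → E3, MemLp g 2 ∧ IsWeakGradient (fun x => √(ρ x)) g

/-- The data of the problem: `k ≥ 1` nuclei with charges `z_j > 0` at distinct points `R_j`,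
constants `A, γ, C_e > 0` and an exponent `p > 4/3`. -/
structure TFDW where
  k : ℕ
  one_le_k : 1 ≤ k
  z : Fin k → ℝ
  z_pos : ∀ j, 0 < z j
  R : Fin k → E3
  R_injective : Function.Injective R
  A : ℝ
  γ : ℝ
  Ce : ℝ
  p : ℝ
  A_pos : 0 < A
  γ_pos : 0 < γ
  Ce_pos : 0 < Ce
  lt_p : 4 / 3 < p

namespace TFDW

variable (d : TFDW)

/-- The potential `V(x) = ∑_j z_j |x - R_j|⁻¹`. -/
noncomputable def V (x : E3) : ℝ := ∑ j, d.z j * ‖x - d.R j‖⁻¹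

/-- The nuclear repulsion `U = ∑_{i<j} z_i z_j |R_i - R_j|⁻¹`. -/
noncomputable def U : ℝ :=
  ∑ i, ∑ j, if i < j then d.z i * d.z j * ‖d.R i - d.R j‖⁻¹ else 0

/-- `J(ρ) = (γ/p) ρ^p - (3 C_e/4) ρ^{4/3}`. -/
noncomputable def J (t : ℝ) : ℝ := d.γ / d.p * t ^ d.p - 3 * d.Ce / 4 * t ^ (4 / 3 : ℝ)

/-- `ρ₀`, defined by `ρ₀^{p-4/3} = C_e p [4 γ (p-1)]⁻¹`. -/
noncomputable def rho0 : ℝ :=
  (d.Ce * d.p * (4 * d.γ * (d.p - 1))⁻¹) ^ (1 / (d.p - 4 / 3))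

/-- `α = (3p-4) [4(p-1)]⁻¹ ρ₀^{1/3} C_e`. -/
noncomputable def alpha : ℝ :=
  (3 * d.p - 4) * (4 * (d.p - 1))⁻¹ * d.rho0 ^ (1 / 3 : ℝ) * d.Ce

/-- `J_α(ρ) = J(ρ) + α ρ`. -/
noncomputable def Jalpha (t : ℝ) : ℝ := d.J t + d.alpha * t

/-- The functional
`ℰ_α(ρ) = A ∫ |∇ρ^{1/2}|² + ∫ J_α(ρ) - ∫ V ρ + D(ρ,ρ) + U`. -/
noncomputable def energy (ρ : E3 → ℝ) : ℝ :=
  d.A * dirichlet (fun x => √(ρ x)) + (∫ x, d.Jalpha (ρ x)) - (∫ x, d.V x * ρ x)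
    + coulomb ρ ρ + d.U

/-- `E_α(λ) = inf {ℰ_α(ρ) : ρ ∈ G_p, ∫ ρ = λ}`. -/
noncomputable def Ealpha (lam : ℝ) : ℝ :=
  sInf {e : ℝ | ∃ ρ : E3 → ℝ, MemG d.p ρ ∧ ∫ x, ρ x = lam ∧ e = d.energy ρ}

end TFDW

end Pool.Agent.Work.MP_8b3296_mp
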