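import Pool.Agent.Work.MP_8b3296_mp.Bound

open MeasureTheory Metric Set
open scoped ContDiff ENNReal

namespace Pool.Agent.Work.MP_8b3296_mp

/-- A smooth compactly supported function has its classical gradient as weak gradient. -/
lemma isWeakGradient_of_contDiff {f : E3 → ℝ} (hf : ContDiff ℝ ∞ f) (hc : HasCompactSupport f) :
    MemLp (fun x => gradient f x) 2 ∧ IsWeakGradient f (fun x => gradient f x) := by
  have hcont : Continuous (fun x => gradient f x) := by
    unfold gradient
    exact (InnerProductSpace.toDual ℝ E3).symm.continuous.comp (hf.continuous_fderiv (by simp))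
  have hcs : HasCompactSupport (fun x => gradient f x) := by
    unfold gradient
    exact (hc.fderiv (𝕜 := ℝ)).comp_left (g := (InnerProductSpace.toDual ℝ E3).symm) (by simp)
  refine ⟨hcont.memLp_of_hasCompactSupport hcs, hf.continuous.locallyIntegrable,
    hcont.locallyIntegrable, ?_⟩
  intro φ hφ hcφ v
  have hin : ∀ x, inner ℝ (gradient f x) v = fderiv ℝ f x v := by
    intro x
    exact InnerProductSpace.toDual_symm_apply
  simp only [hin]
  have hdf : Continuous (fun x => fderiv ℝ f x v) :=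
    (hf.continuous_fderiv (by simp)).clm_apply continuous_const
  have hdφ : Continuous (fun x => fderiv ℝ φ x v) :=
    (hφ.continuous_fderiv (by simp)).clm_apply continuous_const
  apply integral_mul_fderiv_eq_neg_fderiv_mul_of_integrable
  · exact (hdf.mul hφ.continuous).integrable_of_hasCompactSupport hcφ.mul_left
  · exact (hf.continuous.mul hdφ).integrable_of_hasCompactSupport hc.mul_right
  · exact (hf.continuous.mul hφ.continuous).integrable_of_hasCompactSupport hc.mul_right
  · exact fun x _ => hf.contDiffAt.differentiableAt (by simp)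
  · exact fun x _ => hφ.contDiffAt.differentiableAt (by simp)

/-- Every mass `λ ≥ 0` is attained in `G_p`. -/
lemma exists_memG {p : ℝ} (hp : 0 < p) {lam : ℝ} (hlam : 0 ≤ lam) :
    ∃ ρ : E3 → ℝ, MemG p ρ ∧ ∫ x, ρ x = lam := by
  let f : ContDiffBump (0 : E3) := ⟨1, 2, one_pos, one_lt_two⟩
  have hfs : ContDiff ℝ ∞ (f : E3 → ℝ) := f.contDiff
  have hfc : HasCompactSupport (f : E3 → ℝ) := f.hasCompactSupport
  have hf0 : ∀ x, 0 ≤ f x := fun x => f.nonneg
  have hff : HasCompactSupport (fun x => f x ^ 2) := by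
    have : (fun x => f x ^ 2) = fun x => f x * f x := by funext x; ring
    rw [this]; exact hfc.mul_left
  have hN : 0 < ∫ x, f x ^ 2 := by
    refine (hfs.continuous.pow 2).integral_pos_of_hasCompactSupport_nonneg_nonzero
      (x := (0 : E3)) ?_ (fun x => by positivity) ?_
    · exact hff
    · have : f (0 : E3) = 1 := f.one_of_mem_closedBall (mem_closedBall_self (by norm_num [f]))
      show f (0 : E3) ^ 2 ≠ 0
      rw [this]; norm_num
  set N := ∫ x, f x ^ 2 with hNdef
  set s : ℝ := √(lam / N) with hs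
  have hs0 : 0 ≤ s := Real.sqrt_nonneg _
  have hs2 : s ^ 2 = lam / N := Real.sq_sqrt (by positivity)
  set ψ : E3 → ℝ := fun x => s * f x with hψ
  have hψs : ContDiff ℝ ∞ ψ := contDiff_const.mul hfs
  have hψc : HasCompactSupport ψ := hfc.mul_left
  have hψ0 : ∀ x, 0 ≤ ψ x := fun x => mul_nonneg hs0 (hf0 x)
  have hψψ : HasCompactSupport (fun x => ψ x ^ 2) := by
    have : (fun x => ψ x ^ 2) = fun x => ψ x * ψ x := by funext x; ring
    rw [this]; exact hψc.mul_left
  refine ⟨fun x => ψ x ^ 2, ⟨(hψs.continuous.pow 2).measurable, fun x => by positivity,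
    (hψs.continuous.pow 2).integrable_of_hasCompactSupport hψψ, ?_, ?_⟩, ?_⟩
  · refine Continuous.integrable_of_hasCompactSupport ?_ ?_
    · exact (hψs.continuous.pow 2).rpow_const (fun x => Or.inr hp.le)
    · exact hψψ.comp_left (g := fun t : ℝ => t ^ p) (Real.zero_rpow hp.ne')
  · refine ⟨fun x => gradient ψ x, ?_⟩
    have e : (fun x => √(ψ x ^ 2)) = ψ := by
      funext x; exact Real.sqrt_sq (hψ0 x)
    rw [e]
    exact isWeakGradient_of_contDiff hψs hψc
  · have e : ∀ x, ψ x ^ 2 = (lam / N) * f x ^ 2 := by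
      intro x; simp only [hψ]; rw [mul_pow, hs2]
    simp only [e]
    rw [integral_const_mul, ← hNdef]
    field_simp

/-- `E_α` grows at least linearly. -/
theorem Ealpha_linear_growth (d : TFDW) :
    ∃ c : ℝ, 0 < c ∧ ∃ C : ℝ, ∀ lam : ℝ, 0 ≤ lam → c * lam - C ≤ d.Ealpha lam := by
  obtain ⟨c, hc, C, h⟩ := exists_linear_lower_bound d
  refine ⟨c, hc, C, fun lam hlam => ?_⟩
  unfold TFDW.Ealpha
  apply le_csInf
  · obtain ⟨ρ, hρ, hint⟩ := exists_memG d.p_pos hlam
    exact ⟨d.energy ρ, ρ, hρ, hint, rfl⟩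
  · rintro e ⟨ρ, hρ, hint, rfl⟩
    rw [← hint]
    exact h ρ hρ

theorem main (d : TFDW) :
    (∃ c : ℝ, 0 < c ∧ ∃ C : ℝ, ∀ lam : ℝ, 0 ≤ lam → c * lam - C ≤ d.Ealpha lam) ∧
      ¬ AntitoneOn d.Ealpha (Set.Ici 0) := by
  have h1 := Ealpha_linear_growth d
  refine ⟨h1, fun hanti => ?_⟩
  obtain ⟨c, hc, C, h⟩ := h1
  set lam : ℝ := (|C| + |d.Ealpha 0| + 1) / c with hlam
  have hlam0 : 0 ≤ lam := by positivity
  have h2 := h lam hlam0
  have h3 := hanti (Set.mem_Ici.2 le_rfl) (Set.mem_Ici.2 hlam0) hlam0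
  have h4 : c * lam = |C| + |d.Ealpha 0| + 1 := by rw [hlam]; field_simp
  have h5 := le_abs_self C
  have h6 := le_abs_self (d.Ealpha 0)
  linarith

end Pool.Agent.Work.MP_8b3296_mp
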