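import Pool.Agent.Work.MP_8b3296_mp.Defs

open MeasureTheory Metric Set
open scoped ContDiff Convolution

namespace Pool.Agent.Work.MP_8b3296_mp

/-- Cauchy-Schwarz for real functions. -/
lemma abs_integral_mul_le {a b : E3 → ℝ} (ha : MemLp a 2) (hb : MemLp b 2) :
    |∫ x, a x * b x| ≤ √(∫ x, a x ^ 2) * √(∫ x, b x ^ 2) := by
  have h1 : |∫ x, a x * b x| ≤ ∫ x, |a x| * |b x| := by
    have := norm_integral_le_integral_norm (μ := (volume : Measure E3)) (fun x => a x * b x)
    simpa [Real.norm_eq_abs, abs_mul] using this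
  have h2 := integral_mul_le_Lp_mul_Lq_of_nonneg (μ := (volume : Measure E3))
    (f := fun x => |a x|) (g := fun x => |b x|) (p := 2) (q := 2) (by constructor <;> norm_num)
    (Filter.Eventually.of_forall fun x => abs_nonneg _) (Filter.Eventually.of_forall fun x => abs_nonneg _)
    (by simpa using ha.norm) (by simpa using hb.norm)
  refine h1.trans (h2.trans (le_of_eq ?_))
  simp only [Real.sqrt_eq_rpow]
  congr 2 <;> · apply integral_congr_ae; filter_upwards with x; norm_cast; simp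

/-- Auxiliary: `z ↦ ∫ f(x) φ(x - z) dx` has derivative `v ↦ ∫ ⟨g(x), v⟩ φ(x - z) dx`. -/
lemma hasFDerivAt_corr {f : E3 → ℝ} {g : E3 → E3} (hw : IsWeakGradient f g)
    {φ : E3 → ℝ} (hφ : ContDiff ℝ ∞ φ) (hc : HasCompactSupport φ) (z : E3) :
    ∃ L : E3 →L[ℝ] ℝ, HasFDerivAt (fun z => ∫ x, f x * φ (x - z)) L z ∧
      ∀ v, L v = ∫ x, inner ℝ (g x) v * φ (x - z) := by
  have hc' : HasCompactSupport (fun y => φ (-y)) := hc.comp_homeomorph (Homeomorph.neg E3)
  have hφ' : ContDiff ℝ ∞ (fun y => φ (-y)) := hφ.comp contDiff_neg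
  have key := HasCompactSupport.hasFDerivAt_convolution_right (μ := (volume : Measure E3))
    (ContinuousLinearMap.mul ℝ ℝ) hc' hw.1 (hφ'.of_le (by simp)) z
  have e : (f ⋆[ContinuousLinearMap.mul ℝ ℝ, volume] (fun y => φ (-y)))
      = fun z => ∫ x, f x * φ (x - z) := by
    funext z; simp [convolution_def]
  rw [e] at key
  refine ⟨_, key, fun v => ?_⟩
  rw [convolution_precompR_apply (ContinuousLinearMap.mul ℝ ℝ) hw.1 (hc'.fderiv (𝕜 := ℝ))
    (hφ'.continuous_fderiv (by simp)) z v]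
  rw [convolution_def]
  -- translate the test function
  have hψ : ContDiff ℝ ∞ (fun x => φ (x - z)) := hφ.comp (contDiff_id.sub contDiff_const)
  have hcψ : HasCompactSupport (fun x => φ (x - z)) := hc.comp_homeomorph (Homeomorph.subRight z)
  have h3 := hw.2.2 _ hψ hcψ v
  have h4 : ∀ x, fderiv ℝ (fun x => φ (x - z)) x v = - fderiv ℝ (fun y => φ (-y)) (z - x) v := by
    intro x
    have hd : DifferentiableAt ℝ φ (x - z) := hφ.contDiffAt.differentiableAt (by simp)
    have e1 : HasFDerivAt (fun x => φ (x - z)) ((fderiv ℝ φ (x - z)).comp (ContinuousLinearMap.id ℝ E3)) x := by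
      exact hd.hasFDerivAt.comp x ((hasFDerivAt_id x).sub_const z)
    have hd' : DifferentiableAt ℝ φ (-(z - x)) := by simpa using hd
    have e2 : HasFDerivAt (fun y => φ (-y)) ((fderiv ℝ φ (-(z-x))).comp (-(ContinuousLinearMap.id ℝ E3))) (z - x) := by
      exact hd'.hasFDerivAt.comp (z - x) ((hasFDerivAt_id (z - x)).neg)
    rw [e1.fderiv, e2.fderiv]
    simp
  simp only [h4] at h3
  simp only [ContinuousLinearMap.mul_apply']
  have h5 : ∫ x, f x * (fderiv ℝ (fun y => φ (-y)) (z - x)) v = - ∫ x, f x * -(fderiv ℝ (fun y => φ (-y)) (z - x)) v := by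
    rw [← integral_neg]; congr 1; ext x; ring
  rw [h5, h3, neg_neg]

/-- The correlation `∫ f (φ(·-h) - φ)` is bounded by `‖h‖ ‖g‖₂ ‖φ‖₂`. -/
lemma abs_integral_sub_le {f : E3 → ℝ} {g : E3 → E3} (hw : IsWeakGradient f g) (hg : MemLp g 2)
    {φ : E3 → ℝ} (hφ : ContDiff ℝ ∞ φ) (hc : HasCompactSupport φ) (h : E3) :
    |(∫ x, f x * φ (x - h)) - ∫ x, f x * φ x| ≤
      √(∫ x, ‖g x‖ ^ 2) * √(∫ x, φ x ^ 2) * ‖h‖ := by
  set F : E3 → ℝ := fun z => ∫ x, f x * φ (x - z) with hF
  have hmem : ∀ z, MemLp (fun x => φ (x - z)) 2 := fun z =>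
    (hφ.continuous.comp (continuous_id.sub continuous_const)).memLp_of_hasCompactSupport
      (hc.comp_homeomorph (Homeomorph.subRight z))
  have hbound : ∀ z, ‖fderiv ℝ F z‖ ≤ √(∫ x, ‖g x‖ ^ 2) * √(∫ x, φ x ^ 2) := by
    intro z
    obtain ⟨L, hL, hLv⟩ := hasFDerivAt_corr hw hφ hc z
    rw [hL.fderiv]
    refine L.opNorm_le_bound (by positivity) fun v => ?_
    rw [hLv, Real.norm_eq_abs]
    have hgv : MemLp (fun x => inner ℝ (g x) v) 2 := by
      have := hg.const_inner (𝕜 := ℝ) v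
      refine this.congr_norm ?_ ?_
      · exact (hg.1.inner aestronglyMeasurable_const)
      · filter_upwards with x; rw [real_inner_comm]
    refine (abs_integral_mul_le hgv (hmem z)).trans ?_
    have e1 : ∫ x, φ (x - z) ^ 2 = ∫ x, φ x ^ 2 :=
      integral_sub_right_eq_self (fun x => φ x ^ 2) z
    rw [e1]
    have e2 : √(∫ x, inner ℝ (g x) v ^ 2) ≤ √(∫ x, ‖g x‖ ^ 2) * ‖v‖ := by
      rw [← Real.sqrt_sq (norm_nonneg v), ← Real.sqrt_mul (integral_nonneg fun x => by positivity)]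
      apply Real.sqrt_le_sqrt
      rw [← integral_mul_const]
      apply integral_mono
      · exact hgv.integrable_sq
      · exact (hg.integrable_norm_pow (p := 2) (by norm_num)).mul_const _
      · intro x
        show inner ℝ (g x) v ^ 2 ≤ ‖g x‖ ^ 2 * ‖v‖ ^ 2
        rw [← mul_pow, ← sq_abs]
        exact pow_le_pow_left₀ (abs_nonneg _) (abs_real_inner_le_norm _ _) 2
    calc √(∫ x, inner ℝ (g x) v ^ 2) * √(∫ x, φ x ^ 2)
        ≤ (√(∫ x, ‖g x‖ ^ 2) * ‖v‖) * √(∫ x, φ x ^ 2) := by gcongr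
      _ = _ := by ring
  have hdiff : ∀ z ∈ (univ : Set E3), DifferentiableAt ℝ F z := fun z _ => by
    obtain ⟨L, hL, -⟩ := hasFDerivAt_corr hw hφ hc z
    exact hL.differentiableAt
  have := Convex.norm_image_sub_le_of_norm_fderiv_le (s := (univ : Set E3)) (f := F) hdiff
    (fun z _ => hbound z) convex_univ (mem_univ (0 : E3)) (mem_univ h)
  simpa [hF, Real.norm_eq_abs] using this

/-- The difference quotient estimate: `∫ |f(x+h) - f(x)|² dx ≤ ‖h‖² ∫ |∇f|²`. -/
lemma integral_translate_sub_sq_le {f : E3 → ℝ} {g : E3 → E3} (hf : MemLp f 2)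
    (hw : IsWeakGradient f g) (hg : MemLp g 2) (h : E3) :
    ∫ x, (f (x + h) - f x) ^ 2 ≤ ‖h‖ ^ 2 * ∫ x, ‖g x‖ ^ 2 := by
  set G := ∫ x, ‖g x‖ ^ 2 with hG
  have hG0 : 0 ≤ G := integral_nonneg fun x => by positivity
  set δ : E3 → ℝ := fun x => f (x + h) - f x with hδ
  have hfh : MemLp (fun x => f (x + h)) 2 := by
    simpa [Function.comp_def] using hf.comp_measurePreserving (measurePreserving_add_right volume h)
  have hδm : MemLp δ 2 := hfh.sub hf
  set M := √G * ‖h‖ with hM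
  have hM0 : 0 ≤ M := by positivity
  -- the bound against test functions
  have htest : ∀ φ : E3 → ℝ, ContDiff ℝ ∞ φ → HasCompactSupport φ →
      |∫ x, δ x * φ x| ≤ M * √(∫ x, φ x ^ 2) := by
    intro φ hφ hc
    have hφm : MemLp φ 2 := hφ.continuous.memLp_of_hasCompactSupport hc
    have e1 : ∫ x, δ x * φ x = (∫ x, f x * φ (x - h)) - ∫ x, f x * φ x := by
      have e2 : ∫ x, f x * φ (x - h) = ∫ x, f (x + h) * φ x := by
        rw [← integral_add_right_eq_self (fun x => f x * φ (x - h)) h]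
        simp
      rw [e2, ← integral_sub]
      · congr 1; ext x; simp [hδ]; ring
      · exact hfh.integrable_mul hφm
      · exact hf.integrable_mul hφm
    rw [e1]
    refine (abs_integral_sub_le hw hg hφ hc h).trans (le_of_eq ?_)
    rw [hM]; ring
  -- pass to `L²`
  have hcl : ∀ u : Lp ℝ 2 (volume : Measure E3), |inner ℝ (hδm.toLp) u| ≤ M * ‖u‖ := by
    intro u
    refine (Lp.dense_hasCompactSupport_contDiff (E := E3) (F := ℝ) (p := 2)
      (μ := (volume : Measure E3)) (by simp)).induction (P := fun u => |inner ℝ (hδm.toLp) u| ≤ M * ‖u‖) ?_ ?_ u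
    · rintro u ⟨φ, hu, hc, hφ⟩
      have hφm : MemLp φ 2 := hφ.continuous.memLp_of_hasCompactSupport hc
      have hueq : u = hφm.toLp := by
        apply Lp.ext
        exact hu.trans hφm.coeFn_toLp.symm
      rw [hueq]
      have e1 : inner ℝ (hδm.toLp) (hφm.toLp) = ∫ x, δ x * φ x := by
        rw [L2.inner_def]
        apply integral_congr_ae
        filter_upwards [hδm.coeFn_toLp, hφm.coeFn_toLp] with x h1 h2
        rw [h1, h2]; simp [mul_comm]
      have e2 : ‖hφm.toLp‖ = √(∫ x, φ x ^ 2) := by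
        rw [← Real.sqrt_sq (norm_nonneg _), ← real_inner_self_eq_norm_sq, L2.inner_def]
        congr 1
        apply integral_congr_ae
        filter_upwards [hφm.coeFn_toLp] with x h1
        rw [h1]; simp [sq]
      rw [e1, e2]
      exact htest φ hφ hc
    · exact isClosed_le (by fun_prop) (by fun_prop)
  have h1 := hcl hδm.toLp
  rw [real_inner_self_eq_norm_sq, abs_of_nonneg (by positivity)] at h1
  have h2 : ‖hδm.toLp‖ ≤ M := by
    by_contra hcon
    push Not at hcon
    nlinarith [norm_nonneg hδm.toLp]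
  have h3 : ∫ x, δ x ^ 2 = ‖hδm.toLp‖ ^ 2 := by
    rw [← real_inner_self_eq_norm_sq, L2.inner_def]
    apply integral_congr_ae
    filter_upwards [hδm.coeFn_toLp] with x h1
    rw [h1]; simp [sq]
  rw [h3]
  calc ‖hδm.toLp‖ ^ 2 ≤ M ^ 2 := by gcongr
    _ = ‖h‖ ^ 2 * G := by rw [hM, mul_pow, Real.sq_sqrt hG0]; ring

end Pool.Agent.Work.MP_8b3296_mp
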